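import Pool.Agent.Q195.TG3

set_option autoImplicit false

open Filter Topology Pool.Agent.Q195.TG

namespace Pool.Agent.Results.MP_abdce6_an.TBasisIsGammaBasis

/-- Every `T`-basis, for any consistent matrix `T`, is itself a `γ`-basis with respect to a
suitable matrix. In particular a Banach space with a `T`-basis has a `γ`-basis. -/
theorem result : ∀ (𝕜 : Type) [RCLike 𝕜] (E : Type) [NormedAddCommGroup E] [NormedSpace 𝕜 E]
    [CompleteSpace E] (T : ℕ → ℕ → 𝕜) (x : ℕ → E), IsConsistent T → IsTBasis T x →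
    ∃ (f : ℕ → E →L[𝕜] 𝕜) (l : ℕ → ℕ → 𝕜), Gen.IsGammaMatrix l ∧ IsGammaBasis l x f := by
  intro 𝕜 _ E _ _ _ T x hT hx
  exact Gen.main hT hx

end Pool.Agent.Results.MP_abdce6_an.TBasisIsGammaBasis
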